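import Pool.Agent.Q20.OrdSeq.Main

/-!
Orders `n` admitting non-solvable groups for which every group of order `n` with minimal order
sequence is solvable.
-/

namespace Pool.Agent.Results.MP_e15593_al.NoNonsolvableMinimal

open Q20.OrdSeq

/-- **Disproof of Q1.**  For every prime `p ≡ 1 (mod 60)` (for instance `p = 61`) there is a
non-solvable group of order `60 p`, but every group of order `60 p` with minimal order sequence
is solvable.  In particular there are infinitely many such orders. -/
theorem result : (∀ p : ℕ, p.Prime → p ≡ 1 [MOD 60] → IsBadOrder (60 * p)) ∧
    {n : ℕ | IsBadOrder n}.Infinite :=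
  main

end Pool.Agent.Results.MP_e15593_al.NoNonsolvableMinimal
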